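import Mathlib

/-!
# Circular `k`-matching-planar drawings need not have a `k`-matching-planar triangulation

A circular drawing is recorded by its cyclic vertex order: the vertices are
`0, 1, ..., n-1 : Fin n` in their order around the circle, and segments are unordered pairs.
-/

namespace Pool.Agent.Results.MP_755a2c_co.EveryKFails

/-- Two segments with endpoints on the circle cross: they have no common endpoint and their
endpoints alternate around the circle, that is, after naming, `a < c < b < d` where one segment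
joins `a` and `b` and the other one joins `c` and `d`. -/
def Cross {n : ℕ} (e f : Sym2 (Fin n)) : Prop :=
  ∃ a b c d : Fin n, a < c ∧ c < b ∧ b < d ∧
    ((e = s(a, b) ∧ f = s(c, d)) ∨ (e = s(c, d) ∧ f = s(a, b)))

/-- Two edges are independent if they share no endpoint. -/
def Independent {n : ℕ} (e f : Sym2 (Fin n)) : Prop :=
  ∀ v : Fin n, ¬ (v ∈ e ∧ v ∈ f)

/-- The set `S` of edges contains `m` pairwise independent edges. -/
def HasMatching {n : ℕ} (S : Set (Sym2 (Fin n))) (m : ℕ) : Prop :=
  ∃ M : Finset (Sym2 (Fin n)), (∀ e ∈ M, e ∈ S) ∧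
    (∀ e ∈ M, ∀ f ∈ M, e ≠ f → Independent e f) ∧ M.card = m

/-- The edges of `G` that cross (pierce) the segment `t`. -/
def piercing {n : ℕ} (G : SimpleGraph (Fin n)) (t : Sym2 (Fin n)) : Set (Sym2 (Fin n)) :=
  {e | e ∈ G.edgeSet ∧ Cross t e}

/-- The circular drawing of `G` (with the vertices in the order `0, 1, ..., n-1` around the
circle) is `k`-matching-planar: no edge of `G` is crossed by `k + 1` pairwise independent
edges. -/
def MatchingPlanar {n : ℕ} (k : ℕ) (G : SimpleGraph (Fin n)) : Prop :=
  ∀ e ∈ G.edgeSet, ¬ HasMatching (piercing G e) (k + 1)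

/-- The sides of the outer cycle: the segments joining cyclically consecutive vertices. -/
def sides (n : ℕ) : Set (Sym2 (Fin n)) := {e | ∃ i : Fin n, e = s(i, finRotate n i)}

/-- The diagonals: the segments joining two different vertices that are not sides. -/
def diagonals (n : ℕ) : Set (Sym2 (Fin n)) := {e | ¬ e.IsDiag ∧ e ∉ sides n}

/-- `T` is a triangulation of the outer cycle: it consists of all the sides and of an
inclusion-maximal set of pairwise non-crossing diagonals. -/
def IsTriangulation {n : ℕ} (T : Set (Sym2 (Fin n))) : Prop :=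
  ∃ D : Set (Sym2 (Fin n)), T = sides n ∪ D ∧
    Maximal (fun D : Set (Sym2 (Fin n)) =>
      D ⊆ diagonals n ∧ ∀ e ∈ D, ∀ f ∈ D, ¬ Cross e f) D

/-- The statement of the question for one value of `k`: every circular `k`-matching-planar
drawing has a triangulation `T` of its outer cycle no segment of which is pierced by `k + 1`
pairwise independent edges. -/
def GoodTriangulations (k : ℕ) : Prop :=
  ∀ n : ℕ, 3 ≤ n → ∀ G : SimpleGraph (Fin n), MatchingPlanar k G →
    ∃ T : Set (Sym2 (Fin n)), IsTriangulation T ∧ ∀ t ∈ T, ¬ HasMatching (piercing G t) (k + 1)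

/-! ### Crossing, in terms of values -/

theorem cross_iff {n : ℕ} (a b c d : Fin n) :
    Cross s(a, b) s(c, d) ↔
      ((min a b < min c d ∧ min c d < max a b ∧ max a b < max c d) ∨
       (min c d < min a b ∧ min a b < max c d ∧ max c d < max a b)) := by
  constructor
  · rintro ⟨x, y, z, w, h1, h2, h3, h⟩
    rcases h with ⟨he, hf⟩ | ⟨he, hf⟩
    · left
      have hxy : x < y := h1.trans h2
      have hzw : z < w := h2.trans h3
      rw [Sym2.eq_iff] at he hf
      rcases he with ⟨rfl, rfl⟩ | ⟨rfl, rfl⟩ <;> rcases hf with ⟨rfl, rfl⟩ | ⟨rfl, rfl⟩ <;>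
        simp [min_eq_left hxy.le, max_eq_right hxy.le, min_eq_left hzw.le, max_eq_right hzw.le,
          min_eq_right hxy.le, max_eq_left hxy.le, min_eq_right hzw.le, max_eq_left hzw.le,
          h1, h2, h3]
    · right
      have hxy : x < y := h1.trans h2
      have hzw : z < w := h2.trans h3
      rw [Sym2.eq_iff] at he hf
      rcases he with ⟨rfl, rfl⟩ | ⟨rfl, rfl⟩ <;> rcases hf with ⟨rfl, rfl⟩ | ⟨rfl, rfl⟩ <;>
        simp [min_eq_left hxy.le, max_eq_right hxy.le, min_eq_left hzw.le, max_eq_right hzw.le,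
          min_eq_right hxy.le, max_eq_left hxy.le, min_eq_right hzw.le, max_eq_left hzw.le,
          h1, h2, h3]
  · rintro (⟨h1, h2, h3⟩ | ⟨h1, h2, h3⟩)
    · refine ⟨min a b, max a b, min c d, max c d, h1, h2, h3, Or.inl ⟨?_, ?_⟩⟩
      · rcases le_total a b with h | h <;> simp [h, Sym2.eq_swap]
      · rcases le_total c d with h | h <;> simp [h, Sym2.eq_swap]
    · refine ⟨min c d, max c d, min a b, max a b, h1, h2, h3, Or.inr ⟨?_, ?_⟩⟩
      · rcases le_total a b with h | h <;> simp [h, Sym2.eq_swap]
      · rcases le_total c d with h | h <;> simp [h, Sym2.eq_swap]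

/-- Crossing of two segments written with increasing endpoints. -/
theorem cross_iff_lt {n : ℕ} {a b c d : Fin n} (hab : a < b) (hcd : c < d) :
    Cross s(a, b) s(c, d) ↔ ((a < c ∧ c < b ∧ b < d) ∨ (c < a ∧ a < d ∧ d < b)) := by
  rw [cross_iff, min_eq_left hab.le, max_eq_right hab.le, min_eq_left hcd.le,
    max_eq_right hcd.le]

theorem cross_comm {n : ℕ} {e f : Sym2 (Fin n)} (h : Cross e f) : Cross f e := by
  obtain ⟨a, b, c, d, h1, h2, h3, h | h⟩ := h
  · exact ⟨a, b, c, d, h1, h2, h3, Or.inr ⟨h.2, h.1⟩⟩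
  · exact ⟨a, b, c, d, h1, h2, h3, Or.inl ⟨h.2, h.1⟩⟩

/-! ### Sides -/

theorem side_succ {n : ℕ} {a b : Fin n} (h : b.val = a.val + 1) : s(a, b) ∈ sides n := by
  refine ⟨a, ?_⟩
  obtain ⟨m, rfl⟩ : ∃ m, n = m + 1 := ⟨n - 1, by have := a.isLt; omega⟩
  have hb := b.isLt
  have : finRotate (m + 1) a = b := by
    have ha : a = ⟨a.val, by omega⟩ := rfl
    rw [ha, finRotate_of_lt (by omega)]
    exact Fin.ext h.symm
  rw [this]

theorem side_last {n : ℕ} {a b : Fin n} (ha : a.val = 0) (hb : b.val + 1 = n) :
    s(a, b) ∈ sides n := by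
  refine ⟨b, ?_⟩
  obtain ⟨m, rfl⟩ : ∃ m, n = m + 1 := ⟨n - 1, by have := a.isLt; omega⟩
  have hb' : b = Fin.last m := by
    apply Fin.ext
    simp only [Fin.val_last]
    omega
  have : finRotate (m + 1) b = a := by
    rw [hb', finRotate_last]
    apply Fin.ext
    simp [ha]
  rw [this, Sym2.eq_swap]

/-- A side, with increasing endpoints, joins consecutive numbers or `0` and `n - 1`. -/
theorem side_cases {n : ℕ} {a b : Fin n} (hab : a < b) (h : s(a, b) ∈ sides n) :
    b.val = a.val + 1 ∨ (a.val = 0 ∧ b.val + 1 = n) := by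
  obtain ⟨i, hi⟩ := h
  obtain ⟨m, rfl⟩ : ∃ m, n = m + 1 := ⟨n - 1, by have := a.isLt; omega⟩
  have hab' : a.val < b.val := hab
  have hbl := b.isLt
  have key : (finRotate (m + 1) i).val = if i.val = m then 0 else i.val + 1 := by
    by_cases him : i.val = m
    · have : i = Fin.last m := Fin.ext (by simp [him])
      rw [this, finRotate_last]
      simp
    · have hi' : i.val < m := by have := i.isLt; omega
      have : i = ⟨i.val, by omega⟩ := rfl
      rw [if_neg him, this, finRotate_of_lt hi']
  rw [Sym2.eq_iff] at hi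
  rcases hi with ⟨h1, h2⟩ | ⟨h1, h2⟩
  · have h1' : a.val = i.val := by rw [h1]
    have h2' : b.val = (finRotate (m + 1) i).val := by rw [h2]
    rw [key] at h2'
    split_ifs at h2' <;> omega
  · have h1' : b.val = i.val := by rw [h2]
    have h2' : a.val = (finRotate (m + 1) i).val := by rw [h1]
    rw [key] at h2'
    split_ifs at h2' with h
    · right
      omega
    · omega

/-- A side is crossed by no segment. -/
theorem side_not_cross {n : ℕ} {e f : Sym2 (Fin n)} (he : e ∈ sides n) : ¬ Cross e f := by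
  rintro ⟨a, b, c, d, h1, h2, h3, h⟩
  have h1' : a.val < c.val := h1
  have h2' : c.val < b.val := h2
  have h3' : b.val < d.val := h3
  have hd := d.isLt
  rcases h with ⟨rfl, -⟩ | ⟨rfl, -⟩
  · rcases side_cases (h1.trans h2) he with h | ⟨h, h'⟩ <;> omega
  · rcases side_cases (h2.trans h3) he with h | ⟨h, h'⟩ <;> omega

/-! ### Triangulations -/

section Tri

variable {n : ℕ} {T : Set (Sym2 (Fin n))}

theorem tri_side (hT : IsTriangulation T) {e : Sym2 (Fin n)} (he : e ∈ sides n) : e ∈ T := by
  obtain ⟨D, rfl, -⟩ := hT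
  exact Or.inl he

theorem tri_not_cross (hT : IsTriangulation T) {e f : Sym2 (Fin n)} (he : e ∈ T) (hf : f ∈ T) :
    ¬ Cross e f := by
  obtain ⟨D, rfl, hD⟩ := hT
  rcases he with he | he
  · exact side_not_cross he
  · rcases hf with hf | hf
    · exact fun h => side_not_cross hf (cross_comm h)
    · exact hD.prop.2 e he f hf

theorem not_cross_self {e : Sym2 (Fin n)} : ¬ Cross e e := by
  rintro ⟨a, b, c, d, h1, h2, h3, h⟩
  have key : s(a, b) ≠ s(c, d) := by
    rw [Ne, Sym2.eq_iff]
    rintro (⟨h, -⟩ | ⟨h, -⟩)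
    · exact h1.ne h
    · exact (h1.trans (h2.trans h3)).ne h
  rcases h with ⟨h, h'⟩ | ⟨h, h'⟩
  · exact key (h.symm.trans h')
  · exact key (h'.symm.trans h)

theorem tri_max (hT : IsTriangulation T) {e : Sym2 (Fin n)} (hd : ¬ e.IsDiag)
    (he : ∀ f ∈ T, ¬ Cross e f) : e ∈ T := by
  by_cases hs : e ∈ sides n
  · exact tri_side hT hs
  obtain ⟨D, rfl, hD⟩ := hT
  right
  have h2 : D ∪ {e} ⊆ D := by
    apply hD.le_of_ge _ Set.subset_union_left
    refine ⟨?_, ?_⟩
    · rintro f (hf | hf)
      · exact hD.prop.1 hf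
      · rw [Set.mem_singleton_iff] at hf
        rw [hf]
        exact ⟨hd, hs⟩
    · rintro f (hf | hf) g (hg | hg)
      · exact hD.prop.2 f hf g hg
      · rw [Set.mem_singleton_iff] at hg
        rw [hg]
        exact fun h => he f (Or.inr hf) (cross_comm h)
      · rw [Set.mem_singleton_iff] at hf
        rw [hf]
        exact he g (Or.inr hg)
      · rw [Set.mem_singleton_iff] at hf hg
        rw [hf, hg]
        exact not_cross_self
  exact h2 (Or.inr rfl)

/-- Every segment of a triangulation with a vertex strictly between its endpoints is the long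
side of a triangle of the triangulation. -/
theorem tri_apex (hT : IsTriangulation T) {i j : Fin n} (hij : i.val + 2 ≤ j.val)
    (h : s(i, j) ∈ T) : ∃ c : Fin n, i < c ∧ c < j ∧ s(i, c) ∈ T ∧ s(c, j) ∈ T := by
  classical
  have hj := j.isLt
  set S : Finset (Fin n) := Finset.univ.filter fun c => i < c ∧ c < j ∧ s(i, c) ∈ T with hS
  have hne : S.Nonempty := by
    refine ⟨⟨i.val + 1, by omega⟩, ?_⟩
    rw [hS, Finset.mem_filter]
    refine ⟨Finset.mem_univ _, ?_, ?_, tri_side hT (side_succ rfl)⟩
    · exact Fin.lt_def.2 (by simp)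
    · exact Fin.lt_def.2 (by simp; omega)
  obtain ⟨c, hc, hmax⟩ := S.exists_max_image (fun c => c) hne
  rw [hS, Finset.mem_filter] at hc
  obtain ⟨-, hic, hcj, hicT⟩ := hc
  refine ⟨c, hic, hcj, hicT, ?_⟩
  apply tri_max hT
  · rw [Sym2.mk_isDiag_iff]
    exact hcj.ne
  · intro f hf hcr
    induction f using Sym2.ind with
    | _ u v =>
      wlog huv : u < v generalizing u v with H
      · rcases lt_trichotomy u v with h' | h' | h'
        · exact huv h'
        · subst h'
          rw [cross_iff] at hcr
          simp only [min_self, max_self] at hcr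
          rcases hcr with ⟨h1, h2, h3⟩ | ⟨h1, h2, h3⟩
          · exact absurd (h2.trans h3) (lt_irrefl _)
          · exact absurd (h1.trans h2) (lt_irrefl _)
        · exact H v u (by rwa [Sym2.eq_swap (a := v) (b := u)])
            (by rwa [Sym2.eq_swap (a := v) (b := u)]) h'
      rw [cross_iff_lt hcj huv] at hcr
      have hn1 := tri_not_cross hT h hf
      have hn2 := tri_not_cross hT hicT hf
      rw [cross_iff_lt (hic.trans hcj) huv] at hn1
      rw [cross_iff_lt hic huv] at hn2
      rcases hcr with ⟨h1, h2, h3⟩ | ⟨h1, h2, h3⟩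
      · exact hn1 (Or.inl ⟨hic.trans h1, h2, h3⟩)
      · rcases lt_trichotomy u i with h' | h' | h'
        · exact hn1 (Or.inr ⟨h', hic.trans h2, h3⟩)
        · subst h'
          have : v ∈ S := by
            rw [hS, Finset.mem_filter]
            exact ⟨Finset.mem_univ _, hic.trans h2, h3, hf⟩
          exact absurd h2 (not_lt.2 (hmax v this))
        · exact hn2 (Or.inl ⟨h', h1, h2⟩)

/-- In a polygon with `n ≥ 3 L - 2` vertices every triangulation has a segment that leaves at
least `L - 1` vertices on each of its sides. -/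
theorem tri_long (hT : IsTriangulation T) {L : ℕ} (hL : 1 ≤ L) (hn : 3 * L ≤ n + 2)
    (hn2 : L + 1 ≤ n) :
    ∃ i j : Fin n, i.val + L ≤ j.val ∧ j.val + L ≤ i.val + n ∧ s(i, j) ∈ T := by
  classical
  set S : Finset (Fin n × Fin n) :=
    Finset.univ.filter fun p => p.1.val + L ≤ p.2.val ∧ s(p.1, p.2) ∈ T with hS
  have hne : S.Nonempty := by
    refine ⟨(⟨0, by omega⟩, ⟨n - 1, by omega⟩), ?_⟩
    rw [hS, Finset.mem_filter]
    refine ⟨Finset.mem_univ _, ?_, tri_side hT (side_last rfl ?_)⟩
    · simp only []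
      omega
    · simp only []
      omega
  obtain ⟨⟨i, j⟩, hp, hmin⟩ := S.exists_min_image (fun p => p.2.val - p.1.val) hne
  rw [hS, Finset.mem_filter] at hp
  obtain ⟨-, hL1, hijT⟩ := hp
  simp only at hL1 hijT hmin
  refine ⟨i, j, hL1, ?_, hijT⟩
  by_contra hcon
  have hi := i.isLt
  have hj := j.isLt
  have h2 : i.val + 2 ≤ j.val := by omega
  obtain ⟨c, hic, hcj, h3, h4⟩ := tri_apex hT h2 hijT
  have hic' : i.val < c.val := hic
  have hcj' : c.val < j.val := hcj
  by_cases hc : i.val + L ≤ c.val
  · have hm : (i, c) ∈ S := by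
      rw [hS, Finset.mem_filter]
      exact ⟨Finset.mem_univ _, hc, h3⟩
    have := hmin _ hm
    simp only at this
    omega
  · have hm : (c, j) ∈ S := by
      rw [hS, Finset.mem_filter]
      refine ⟨Finset.mem_univ _, ?_, h4⟩
      simp only []
      omega
    have := hmin _ hm
    simp only at this
    omega

end Tri

/-! ### The graph -/

/-- All chords of circular length at most `k + 1`. -/
def G (k n : ℕ) : SimpleGraph (Fin n) where
  Adj u v := (u.val < v.val ∧ (v.val ≤ u.val + (k + 1) ∨ u.val + n ≤ v.val + (k + 1))) ∨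
    (v.val < u.val ∧ (u.val ≤ v.val + (k + 1) ∨ v.val + n ≤ u.val + (k + 1)))
  symm := ⟨fun u v h => by
    rcases h with h | h
    · exact Or.inr h
    · exact Or.inl h⟩
  loopless := ⟨fun u h => by
    rcases h with h | h <;> exact absurd h.1 (lt_irrefl _)⟩

theorem G_matchingPlanar (k n : ℕ) : MatchingPlanar k (G k n) := by
  classical
  rintro e he ⟨M, hM, hind, hcard⟩
  induction e using Sym2.ind with
  | _ a b =>
    wlog hab : a < b generalizing a b with H
    · rcases lt_trichotomy a b with h' | h' | h'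
      · exact hab h'
      · subst h'
        exact (G k n).loopless.irrefl _ he
      · exact H b a (by rwa [Sym2.eq_swap (a := b) (b := a)])
          (fun e he => by rw [Sym2.eq_swap (a := b) (b := a)]; exact hM e he) h'
    have hab' : a.val < b.val := hab
    have hbn := b.isLt
    rw [SimpleGraph.mem_edgeSet] at he
    have he' : b.val ≤ a.val + (k + 1) ∨ a.val + n ≤ b.val + (k + 1) := by
      rcases he with h | h
      · exact h.2
      · exact absurd h.1 (not_lt.2 hab'.le)
    -- every edge of `M` has an endpoint in the short side of `s(a, b)`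
    obtain ⟨A, hA, hAM⟩ : ∃ A : Finset (Fin n), A.card ≤ k ∧
        ∀ e ∈ M, ∃ v ∈ A, v ∈ e := by
      have hcr : ∀ e ∈ M, (∃ v : Fin n, (a < v ∧ v < b) ∧ v ∈ e) ∧
          (∃ v : Fin n, (v < a ∨ b < v) ∧ v ∈ e) := by
        intro e he
        obtain ⟨-, x, y, z, w, h1, h2, h3, h⟩ := hM e he
        rcases h with ⟨h, rfl⟩ | ⟨h, rfl⟩
        · rw [Sym2.eq_iff] at h
          rcases h with ⟨rfl, rfl⟩ | ⟨rfl, rfl⟩
          · exact ⟨⟨z, ⟨h1, h2⟩, Sym2.mem_mk_left _ _⟩, ⟨w, Or.inr h3, Sym2.mem_mk_right _ _⟩⟩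
          · exact absurd hab (not_lt.2 (h1.trans h2).le)
        · rw [Sym2.eq_iff] at h
          rcases h with ⟨rfl, rfl⟩ | ⟨rfl, rfl⟩
          · exact ⟨⟨y, ⟨h2, h3⟩, Sym2.mem_mk_right _ _⟩, ⟨x, Or.inl h1, Sym2.mem_mk_left _ _⟩⟩
          · exact absurd hab (not_lt.2 (h2.trans h3).le)
      rcases he' with h | h
      · refine ⟨Finset.Ioo a b, ?_, ?_⟩
        · rw [Fin.card_Ioo]
          omega
        · intro e he
          obtain ⟨⟨v, hv, hve⟩, -⟩ := hcr e he
          exact ⟨v, Finset.mem_Ioo.2 hv, hve⟩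
      · refine ⟨Finset.Iio a ∪ Finset.Ioi b, ?_, ?_⟩
        · refine (Finset.card_union_le _ _).trans ?_
          rw [Fin.card_Iio, Fin.card_Ioi]
          omega
        · intro e he
          obtain ⟨-, ⟨v, hv, hve⟩⟩ := hcr e he
          refine ⟨v, ?_, hve⟩
          rw [Finset.mem_union, Finset.mem_Iio, Finset.mem_Ioi]
          exact hv
    have : Nonempty (Fin n) := ⟨a⟩
    choose! f hf1 hf2 using hAM
    have : M.card ≤ A.card := by
      apply Finset.card_le_card_of_injOn f hf1
      intro x hx y hy hxy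
      by_contra hne
      exact hind x hx y hy hne (f x) ⟨hf2 x hx, by rw [hxy]; exact hf2 y hy⟩
    omega

/-- A segment with at least `2 k` vertices on each side is pierced by `2 k` pairwise independent
chords of circular length at most `k + 1`. -/
theorem G_pierced {k n : ℕ} {i j : Fin n} (h1 : i.val + (2 * k + 1) ≤ j.val)
    (h2 : j.val + (2 * k + 1) ≤ i.val + n) : HasMatching (piercing (G k n) s(i, j)) (2 * k) := by
  classical
  have hi := i.isLt
  have hj := j.isLt
  -- the inner endpoint and the outer endpoint of the chord number `m`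
  have hin : ∀ m : Fin (2 * k), (if m.val < k then i.val + (m.val + 1)
      else j.val - (m.val - k + 1)) < n := by
    intro m
    have := m.isLt
    split_ifs <;> omega
  have hout : ∀ m : Fin (2 * k), (if m.val < k then
      (if k - m.val ≤ i.val then i.val - (k - m.val) else i.val + n - (k - m.val))
      else (if j.val + (2 * k - m.val) < n then j.val + (2 * k - m.val)
        else j.val + (2 * k - m.val) - n)) < n := by
    intro m
    have := m.isLt
    split_ifs <;> omega
  set inn : Fin (2 * k) → Fin n := fun m => ⟨_, hin m⟩ with hinn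
  set out : Fin (2 * k) → Fin n := fun m => ⟨_, hout m⟩ with houtt
  have vin : ∀ m, (inn m).val = (if m.val < k then i.val + (m.val + 1)
      else j.val - (m.val - k + 1)) := fun m => rfl
  have vout : ∀ m, (out m).val = (if m.val < k then
      (if k - m.val ≤ i.val then i.val - (k - m.val) else i.val + n - (k - m.val))
      else (if j.val + (2 * k - m.val) < n then j.val + (2 * k - m.val)
        else j.val + (2 * k - m.val) - n)) := fun m => rfl
  have in_mem : ∀ m, i.val < (inn m).val ∧ (inn m).val < j.val := by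
    intro m
    have := m.isLt
    rw [vin]
    split_ifs <;> omega
  have out_mem : ∀ m, (out m).val < i.val ∨ j.val < (out m).val := by
    intro m
    have := m.isLt
    rw [vout]
    split_ifs <;> omega
  have in_inj : ∀ m m', inn m = inn m' → m = m' := by
    intro m m' h
    have hm := m.isLt
    have hm' := m'.isLt
    have h' : (inn m).val = (inn m').val := by rw [h]
    rw [vin, vin] at h'
    apply Fin.ext
    split_ifs at h' <;> omega
  have out_inj : ∀ m m', out m = out m' → m = m' := by
    intro m m' h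
    have hm := m.isLt
    have hm' := m'.isLt
    have h' : (out m).val = (out m').val := by rw [h]
    rw [vout, vout] at h'
    apply Fin.ext
    split_ifs at h' <;> omega
  have in_ne_out : ∀ m m', inn m ≠ out m' := by
    intro m m' h
    have h1 := in_mem m
    have h2 := out_mem m'
    have h' : (inn m).val = (out m').val := by rw [h]
    omega
  have ind : ∀ m m', m ≠ m' → Independent s(inn m, out m) s(inn m', out m') := by
    rintro m m' hne v ⟨hv, hv'⟩
    rw [Sym2.mem_iff] at hv hv'
    rcases hv with rfl | rfl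
    · rcases hv' with h | h
      · exact hne (in_inj _ _ h)
      · exact in_ne_out _ _ h
    · rcases hv' with h | h
      · exact in_ne_out _ _ h.symm
      · exact hne (out_inj _ _ h)
  have inj : Function.Injective fun m : Fin (2 * k) => s(inn m, out m) := by
    intro m m' h
    by_contra hne
    refine ind m m' hne (inn m) ⟨Sym2.mem_mk_left _ _, ?_⟩
    simp only at h
    rw [← h]
    exact Sym2.mem_mk_left _ _
  refine ⟨Finset.univ.image fun m : Fin (2 * k) => s(inn m, out m), ?_, ?_, ?_⟩
  · intro e he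
    rw [Finset.mem_image] at he
    obtain ⟨m, -, rfl⟩ := he
    have hm := m.isLt
    refine ⟨?_, ?_⟩
    · rw [SimpleGraph.mem_edgeSet]
      show ((inn m).val < (out m).val ∧ ((out m).val ≤ (inn m).val + (k + 1) ∨
          (inn m).val + n ≤ (out m).val + (k + 1))) ∨
        ((out m).val < (inn m).val ∧ ((inn m).val ≤ (out m).val + (k + 1) ∨
          (out m).val + n ≤ (inn m).val + (k + 1)))
      rw [vin, vout]
      split_ifs <;> omega
    · have h3 := in_mem m
      have h4 := out_mem m
      rcases h4 with h4 | h4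
      · exact ⟨out m, inn m, i, j, Fin.lt_def.2 h4, Fin.lt_def.2 h3.1, Fin.lt_def.2 h3.2,
          Or.inr ⟨rfl, Sym2.eq_swap⟩⟩
      · exact ⟨i, j, inn m, out m, Fin.lt_def.2 h3.1, Fin.lt_def.2 h3.2, Fin.lt_def.2 h4,
          Or.inl ⟨rfl, rfl⟩⟩
  · intro e he f hf hef
    rw [Finset.mem_image] at he hf
    obtain ⟨m, -, rfl⟩ := he
    obtain ⟨m', -, rfl⟩ := hf
    exact ind m m' fun h => hef (by rw [h])
  · rw [Finset.card_image_of_injective _ inj, Finset.card_univ, Fintype.card_fin]

theorem HasMatching.mono {n : ℕ} {S : Set (Sym2 (Fin n))} {m m' : ℕ} (hm : m' ≤ m)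
    (h : HasMatching S m) : HasMatching S m' := by
  obtain ⟨M, h1, h2, h3⟩ := h
  obtain ⟨N, hN, hc⟩ := Finset.exists_subset_card_eq (h3 ▸ hm)
  exact ⟨N, fun e he => h1 e (hN he), fun e he f hf => h2 e (hN he) f (hN hf), hc⟩

theorem strong (k n : ℕ) (hk : 1 ≤ k) (hn : 6 * k + 1 ≤ n) :
    ∃ G : SimpleGraph (Fin n), MatchingPlanar k G ∧
      ∀ T : Set (Sym2 (Fin n)), IsTriangulation T →
        ∃ t ∈ T, HasMatching (piercing G t) (2 * k) := by
  refine ⟨G k n, G_matchingPlanar k n, fun T hT => ?_⟩
  obtain ⟨i, j, h1, h2, h3⟩ := tri_long hT (L := 2 * k + 1) (by omega) (by omega) (by omega)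
  exact ⟨s(i, j), h3, G_pierced h1 h2⟩

/-- **The conjecture fails for every `k ≥ 1`.**  Moreover, for every `k ≥ 1` and every
`n ≥ 6 k + 1` there is a circular `k`-matching-planar drawing with `n` vertices such that every
triangulation of the outer cycle has a segment that is pierced by `2 k ≥ k + 1` pairwise
independent edges of the graph. -/
theorem result :
    (∀ k : ℕ, 1 ≤ k → ¬ GoodTriangulations k) ∧
    ∀ k n : ℕ, 1 ≤ k → 6 * k + 1 ≤ n →
      ∃ G : SimpleGraph (Fin n), MatchingPlanar k G ∧
        ∀ T : Set (Sym2 (Fin n)), IsTriangulation T →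
          ∃ t ∈ T, HasMatching (piercing G t) (2 * k) := by
  refine ⟨fun k hk hgood => ?_, fun k n hk hn => strong k n hk hn⟩
  obtain ⟨G, hG, hT⟩ := strong k (6 * k + 1) hk le_rfl
  obtain ⟨T, hT1, hT2⟩ := hgood (6 * k + 1) (by omega) G hG
  obtain ⟨t, ht, hm⟩ := hT T hT1
  exact hT2 t ht (hm.mono (by omega))

end Pool.Agent.Results.MP_755a2c_co.EveryKFails
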